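import Pool.Agent.N408.IB.Stm

/-!
# IB/EQF: the functional equation holds for `hfin` (helper137)
-/

set_option autoImplicit false

open Real Set MeasureTheory

namespace N137.IB.EQF

open IB408

/-- the integrand -/
noncomputable def PP (q : ℝ → ℝ) (w t : ℝ) : ℝ :=
  (Leg (hfin q w) (arccos t) ^ 3 + Leg (hfin q w) (π - arccos t) ^ 3) / 2

theorem avg {q : ℝ → ℝ} {w : ℝ} (hst : ∀ γ, st q (-γ) = st q γ)
    (hob : ∀ γ, ob w (-γ) = -ob w γ) (ψ : ℝ) :
    (hfin q w ψ + hfin q w (π - ψ)) / 2 = 1 + q (sin ψ) + st q (arcsin (cos ψ)) := by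
  unfold hfin
  rw [sin_pi_sub, cos_pi_sub, arcsin_neg, hst, sub_sub_cancel]
  have e : π / 2 - (π - ψ) = -(π / 2 - ψ) := by ring
  rw [e, hob]
  ring

theorem t (h1 : S_L1) (h2 : S_ODD1) (h3 : S_ODD2) (h4 : S_BAS1) (h5 : S_BAS2) (h6 : S_LOC) :
    IB408.S_EQF := by
  intro q w hS ψ hψ0 hψπ
  obtain ⟨hA, hw0, hw1, hfix, hAvb⟩ := hS
  have hS : Sol q w := ⟨hA, hw0, hw1, hfix, hAvb⟩
  obtain ⟨⟨hbal, hal, hsal, hcal, hc0, hc1, -, hc2⟩, -⟩ := h2
  obtain ⟨-, hob, -⟩ := h3 w hw0 hw1
  obtain ⟨-, -, -, -, -, -, hsteven, hst0, -, hPint, -⟩ := h4 q hA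
  obtain ⟨-, -, -, -, -, -, -, -, hptc, -, -, hAvs, -, hAvI⟩ := h5 q w hA hw0 hw1
  obtain ⟨hHc, -, -, hH1, hL1, hL2, hL3, hL4, -⟩ := h6 q w hS
  obtain ⟨-, -, hLc, -⟩ := h1 (hfin q w) hHc (fun ψ => (hH1 ψ).trans (by norm_num))
  have hb : b = 1 / 1000000 := rfl
  have hb0 : 0 < b := by rw [hb]; norm_num
  have hbc : b < c := by
    have : 1 - (51 / 100) * b ^ 2 ≤ c := by linarith
    refine lt_of_lt_of_le ?_ this
    rw [hb]
    norm_num
  have hal0 : 0 < al := lt_of_lt_of_le hb0 hbal
  have hal1 : al ≤ 1 / 4 := hal.trans (by rw [hb]; norm_num)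
  have hpi : 3 < π := pi_gt_three
  have hPc : Continuous (PP q w) := by
    unfold PP
    exact (((hLc.comp continuous_arccos).pow 3).add
      ((hLc.comp (continuous_const.sub continuous_arccos)).pow 3)).div_const 2
  have hPi : ∀ x y, IntervalIntegrable (PP q w) volume x y := fun x y =>
    hPc.intervalIntegrable x y
  -- the belt
  have hP1 : ∀ t, 0 ≤ t → t ≤ b → PP q w t = 1 + pt q w t := by
    intro t ht0 htb
    have hs : arccos t = π / 2 - arcsin t := rfl
    have h7 : 0 ≤ arcsin t := arcsin_nonneg.2 ht0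
    have h8 : arcsin t ≤ al := by
      unfold al
      exact monotone_arcsin htb
    have h9 : |arcsin t| ≤ 1 / 4 := by
      rw [abs_of_nonneg h7]
      exact h8.trans hal1
    have h10 : |-arcsin t| ≤ 1 / 4 := by rwa [abs_neg]
    have e1 := hL3 _ h9
    have e2 := hL3 _ h10
    have e3 : π - (π / 2 - arcsin t) = π / 2 - -arcsin t := by ring
    unfold PP pt Pbelt
    rw [hs, e3, e1, e2]
    ring
  -- the middle
  have hP2 : ∀ t, b ≤ t → t ≤ c → PP q w t = 1 := by
    intro t htb htc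
    have h7 : al ≤ arccos t := by
      have h8 : arccos (cos al) = al := arccos_cos hal0.le (by linarith)
      rw [← h8]
      apply antitone_arccos
      rw [hcal]
      exact htc
    have h9 : arccos t ≤ π / 2 - al := antitone_arccos htb
    obtain ⟨e1, e2⟩ := hL4 _ h7 h9
    unfold PP
    rw [e1, e2]
    norm_num
  -- the cap
  have hP3 : ∀ θ, 0 ≤ θ → θ ≤ al → PP q w (cos θ) = Pcap q θ := by
    intro θ h0 h7
    have h8 : arccos (cos θ) = θ := arccos_cos h0 (by linarith)
    have h9 : |θ| ≤ 1 / 4 := by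
      rw [abs_of_nonneg h0]
      exact h7.trans hal1
    unfold PP Pcap
    rw [h8, hL1 _ h9, hL2 _ h9]
  have hI1 : ∀ x, 0 ≤ x → x ≤ b → ∫ t in (0 : ℝ)..x, PP q w t = x + x * Av q w x := by
    intro x hx0 hxb
    have e1 : ∫ t in (0 : ℝ)..x, PP q w t = ∫ t in (0 : ℝ)..x, (1 + pt q w t) := by
      apply intervalIntegral.integral_congr
      intro t ht
      rw [uIcc_of_le hx0] at ht
      exact hP1 t ht.1 (ht.2.trans hxb)
    rw [e1, intervalIntegral.integral_add (continuous_const.intervalIntegrable _ _)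
      (hptc.intervalIntegrable _ _), ← hAvI x]
    simp
  have hI2 : ∀ x, b ≤ x → x ≤ c → ∫ t in (0 : ℝ)..x, PP q w t = x := by
    intro x hxb hxc
    have e1 : ∫ t in b..x, PP q w t = ∫ _t in b..x, (1 : ℝ) := by
      apply intervalIntegral.integral_congr
      intro t ht
      rw [uIcc_of_le hxb] at ht
      exact hP2 t ht.1 (ht.2.trans hxc)
    rw [← intervalIntegral.integral_add_adjacent_intervals (hPi 0 b) (hPi b x),
      hI1 b hb0.le le_rfl, hAvb, e1]
    simp
  have hI3 : ∀ g, 0 ≤ g → g ≤ al → ∫ t in (0 : ℝ)..cos g, PP q w t =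
      cos g + ∫ θ in g..al, (Pcap q θ - 1) * sin θ := by
    intro g hg0 hg1
    have e1 := intervalIntegral.integral_comp_mul_deriv (a := al) (b := g) (f := cos)
      (f' := fun x => -sin x) (g := PP q w) (fun x _ => hasDerivAt_cos x)
      (continuous_sin.neg.continuousOn) hPc
    rw [hcal] at e1
    rw [← intervalIntegral.integral_add_adjacent_intervals (hPi 0 c) (hPi c (cos g)),
      hI2 c hbc.le le_rfl, ← e1, intervalIntegral.integral_symm]
    have e2 : ∫ x in g..al, (PP q w ∘ cos) x * -sin x =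
        ∫ x in g..al, (-((Pcap q x - 1) * sin x) - sin x) := by
      apply intervalIntegral.integral_congr
      intro x hx
      rw [uIcc_of_le hg1] at hx
      simp only [Function.comp]
      rw [hP3 x (hg0.trans hx.1) hx.2]
      ring
    have hPcc : Continuous (Pcap q) := (h4 q hA).2.1
    have hc3 : Continuous fun x => -((Pcap q x - 1) * sin x) :=
      ((hPcc.sub continuous_const).mul continuous_sin).neg
    have e3 : ∫ x in g..al, (-((Pcap q x - 1) * sin x) - sin x) =
        (∫ x in g..al, -((Pcap q x - 1) * sin x)) - ∫ x in g..al, sin x :=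
      intervalIntegral.integral_sub (hc3.intervalIntegrable _ _)
        (continuous_sin.intervalIntegrable _ _)
    rw [e2, e3, intervalIntegral.integral_neg, integral_sin, hcal]
    ring
  -- the left side
  have hx0 : 0 < sin ψ := sin_pos_of_pos_of_lt_pi hψ0 hψπ
  have hγ : arcsin (cos ψ) = π / 2 - ψ := by
    rw [← sin_pi_div_two_sub]
    exact arcsin_sin (by linarith) (by linarith)
  have hcγ : cos |π / 2 - ψ| = sin ψ := by
    rw [cos_abs, cos_pi_div_two_sub]
  have hγa : |π / 2 - ψ| ≤ π := by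
    rw [abs_le]
    constructor <;> linarith
  have hstz : sin ψ ≤ c → st q (π / 2 - ψ) = 0 := by
    intro hx
    apply hst0
    by_contra hcon
    push Not at hcon
    have h7 : cos al < cos |π / 2 - ψ| :=
      cos_lt_cos_of_nonneg_of_le_pi (abs_nonneg _) (by linarith) hcon
    rw [hcγ, hcal] at h7
    linarith
  rw [avg hsteven hob, hγ]
  change (1 + q (sin ψ) + st q (π / 2 - ψ)) * (∫ t in (0 : ℝ)..sin ψ, PP q w t) = sin ψ
  rcases le_total (sin ψ) b with hxb | hxb
  · rw [hI1 _ hx0.le hxb, hstz (hxb.trans hbc.le), hfix (sin ψ)]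
    have hcl : cl (sin ψ) = sin ψ := by
      unfold cl
      rw [min_eq_left hxb, max_eq_right (by linarith)]
    unfold Tw
    rw [hcl, hAvb, mul_zero, sub_zero]
    have h7 : |Av q w (sin ψ)| ≤ b ^ 3 / 5 := hAvs _
    have h8 : b ^ 3 / 5 < 1 := by rw [hb]; norm_num
    have h9 : 1 + Av q w (sin ψ) ≠ 0 := by
      have := (abs_le.1 h7).1
      intro h
      linarith
    field_simp
    ring
  · have hq : q (sin ψ) = 0 := by
      apply hA.2.2.1
      rw [abs_of_pos hx0]
      exact hxb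
    rw [hq]
    rcases le_total (sin ψ) c with hxc | hxc
    · rw [hI2 _ hxb hxc, hstz hxc]
      ring
    · have hγal : |π / 2 - ψ| ≤ al := by
        by_contra hcon
        push Not at hcon
        have h7 : cos |π / 2 - ψ| < cos al := cos_lt_cos_of_nonneg_of_le_pi hal0.le hγa hcon
        rw [hcγ, hcal] at h7
        linarith
      have e1 := hI3 _ (abs_nonneg _) hγal
      rw [hcγ] at e1
      have e2 : Pint q (π / 2 - ψ) = ∫ θ in |π / 2 - ψ|..al, (Pcap q θ - 1) * sin θ := by
        unfold Pint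
        rw [min_eq_left hγal]
      rw [← e2] at e1
      rw [e1]
      have e3 : st q (π / 2 - ψ) = sin ψ / (sin ψ + Pint q (π / 2 - ψ)) - 1 := by
        unfold st
        rw [min_eq_left hγal, hcγ]
      rw [e3]
      have h7 := hPint (π / 2 - ψ)
      have h8 : (9 / 1000) * b ^ 4 < c := by
        refine lt_trans ?_ hbc
        rw [hb]
        norm_num
      have h9 : sin ψ + Pint q (π / 2 - ψ) ≠ 0 := by
        have := (abs_le.1 h7).1
        intro h
        linarith
      have h10 : 1 + 0 + (sin ψ / (sin ψ + Pint q (π / 2 - ψ)) - 1) =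
          sin ψ / (sin ψ + Pint q (π / 2 - ψ)) := by ring
      rw [h10, div_mul_cancel₀ _ h9]

end N137.IB.EQF
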